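import Mathlib

/-! # SDX4, row A4: averaging over the relaxations, average case -/

set_option autoImplicit false

open scoped BigOperators

namespace SDX4

/-- A random relaxation which is good on average contains a small relaxation with a large
rectangle with respect to the signed measure `mu` with nearly uniform marginals. -/
theorem averageC {Ω X Y : Type} [Fintype Ω] [Fintype X] [Fintype Y] [DecidableEq X]
    [DecidableEq Y] [Nonempty X] [Nonempty Y] (p s : Ω → ℝ) (hp : ∀ ω, 0 ≤ p ω)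
    (hp1 : ∑ ω, p ω = 1) (hs : ∀ ω, 0 ≤ s ω) (mu : Y → X → ℝ) (γ η ρ a N : ℝ)
    (hγ : 0 < γ) (hγη : γ ≤ η / 8) (hγ1 : γ ≤ 1) (hρ : ρ ≤ η / 8) (ha : 0 < a)
    (hN : ∑ ω, p ω * s ω ≤ N) (hNa : N / a ≤ η / 8)
    (hrow : ∀ y, ∑ x, mu y x = Fintype.card X)
    (hcol : ∀ u : X → ℝ, (∀ x, 0 ≤ u x ∧ u x ≤ 1) →
      |∑ y, ∑ x, u x * mu y x - Fintype.card Y * ∑ x, u x|
        ≤ ρ * (Fintype.card Y * Fintype.card X))
    (hpos : ∀ (u : X → ℝ) (v : Y → ℝ), (∀ x, 0 ≤ u x ∧ u x ≤ 1) → (∀ y, 0 ≤ v y ∧ v y ≤ 1) →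
      -(γ / 2 * (Fintype.card Y * Fintype.card X)) ≤ ∑ y, ∑ x, v y * (u x * mu y x))
    (𝒳 : Ω → Finset X) (𝒮 : Ω → Finset Y)
    (h : 1 + η ≤ ∑ ω, p ω * ((𝒳 ω).card / (Fintype.card X : ℝ))
      + ∑ ω, p ω * ((𝒮 ω).card / (Fintype.card Y : ℝ))) :
    ∃ ω, s ω ≤ a ∧ γ * (Fintype.card Y * Fintype.card X) ≤ ∑ y ∈ 𝒮 ω, ∑ x ∈ 𝒳 ω, mu y x := by
  classical
  have hη : 0 < η := by linarith
  have hcY : (0 : ℝ) < Fintype.card Y := by exact_mod_cast Fintype.card_pos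
  have hcX : (0 : ℝ) < Fintype.card X := by exact_mod_cast Fintype.card_pos
  obtain ⟨W, hWdef⟩ : ∃ W : ℝ, W = Fintype.card Y * Fintype.card X := ⟨_, rfl⟩
  have hW : 0 < W := by
    rw [hWdef]
    exact mul_pos hcY hcX
  rw [← hWdef] at hcol hpos ⊢
  -- the bilinear form
  let B : (X → ℝ) → (Y → ℝ) → ℝ := fun u v => ∑ y, ∑ x, v y * (u x * mu y x)
  let ux : Ω → X → ℝ := fun ω x => if x ∈ 𝒳 ω then 1 else 0
  let vy : Ω → Y → ℝ := fun ω y => if y ∈ 𝒮 ω then 1 else 0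
  have hux : ∀ ω x, 0 ≤ ux ω x ∧ ux ω x ≤ 1 := by
    intro ω x
    simp only [ux]
    split_ifs <;> norm_num
  have hvy : ∀ ω y, 0 ≤ vy ω y ∧ vy ω y ≤ 1 := by
    intro ω y
    simp only [vy]
    split_ifs <;> norm_num
  have hZ : ∀ ω, ∑ y ∈ 𝒮 ω, ∑ x ∈ 𝒳 ω, mu y x = B (ux ω) (vy ω) := by
    intro ω
    simp only [B, ux, vy]
    rw [← Finset.sum_filter_add_sum_filter_not Finset.univ (fun y => y ∈ 𝒮 ω)]
    have h1 : ∑ y ∈ Finset.univ.filter (fun y => ¬ y ∈ 𝒮 ω), ∑ x,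
        (if y ∈ 𝒮 ω then (1 : ℝ) else 0) * ((if x ∈ 𝒳 ω then (1 : ℝ) else 0) * mu y x) = 0 := by
      refine Finset.sum_eq_zero fun y hy => ?_
      rw [Finset.mem_filter] at hy
      simp [hy.2]
    rw [h1, add_zero]
    have h2 : Finset.univ.filter (fun y => y ∈ 𝒮 ω) = 𝒮 ω := by
      ext y
      simp
    rw [h2]
    refine Finset.sum_congr rfl fun y hy => ?_
    simp [hy]
  have hone : ∀ v : Y → ℝ, B (fun _ => 1) v = Fintype.card X * ∑ y, v y := by
    intro v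
    simp only [B, one_mul]
    rw [Finset.mul_sum]
    refine Finset.sum_congr rfl fun y _ => ?_
    rw [← Finset.mul_sum, hrow, mul_comm]
  have hcardS : ∀ ω, ∑ y, vy ω y = ((𝒮 ω).card : ℝ) := by
    intro ω
    simp [vy]
  have hcardX : ∀ ω, ∑ x, ux ω x = ((𝒳 ω).card : ℝ) := by
    intro ω
    simp [ux]
  have hident : ∀ ω, B (ux ω) (vy ω) = B (fun _ => 1) (vy ω)
      - B (fun x => 1 - ux ω x) (fun _ => 1)
      + B (fun x => 1 - ux ω x) (fun y => 1 - vy ω y) := by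
    intro ω
    simp only [B]
    rw [← Finset.sum_sub_distrib, ← Finset.sum_add_distrib]
    refine Finset.sum_congr rfl fun y _ => ?_
    rw [← Finset.sum_sub_distrib, ← Finset.sum_add_distrib]
    refine Finset.sum_congr rfl fun x _ => ?_
    ring
  have hident2 : ∀ ω, B (ux ω) (vy ω) = B (fun _ => 1) (vy ω)
      - B (fun x => 1 - ux ω x) (vy ω) := by
    intro ω
    simp only [B]
    rw [← Finset.sum_sub_distrib]
    refine Finset.sum_congr rfl fun y _ => ?_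
    rw [← Finset.sum_sub_distrib]
    refine Finset.sum_congr rfl fun x _ => ?_
    ring
  have hlow : ∀ ω, (((𝒳 ω).card / (Fintype.card X : ℝ)) + ((𝒮 ω).card / (Fintype.card Y : ℝ))
      - 1 - ρ - γ / 2) * W ≤ B (ux ω) (vy ω) := by
    intro ω
    have h1 := hpos (fun x => 1 - ux ω x) (fun y => 1 - vy ω y)
      (fun x => ⟨by linarith [(hux ω x).2], by linarith [(hux ω x).1]⟩)
      (fun y => ⟨by linarith [(hvy ω y).2], by linarith [(hvy ω y).1]⟩)
    have h2 : -(γ / 2 * W) ≤ B (fun x => 1 - ux ω x) (fun y => 1 - vy ω y) := h1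
    have h3 := hcol (fun x => 1 - ux ω x)
      (fun x => ⟨by linarith [(hux ω x).2], by linarith [(hux ω x).1]⟩)
    have h4 : ∑ y, ∑ x, (1 - ux ω x) * mu y x = B (fun x => 1 - ux ω x) (fun _ => 1) := by
      simp only [B, one_mul]
    have h5 : ∑ x, (1 - ux ω x) = Fintype.card X - ((𝒳 ω).card : ℝ) := by
      rw [Finset.sum_sub_distrib, hcardX]
      simp
    rw [h4, h5] at h3
    have h6 := (abs_le.1 h3).2
    rw [hident ω, hone, hcardS]
    have e1 : (((𝒳 ω).card / (Fintype.card X : ℝ)) + ((𝒮 ω).card / (Fintype.card Y : ℝ))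
      - 1 - ρ - γ / 2) * W = Fintype.card Y * ((𝒳 ω).card : ℝ)
        + Fintype.card X * ((𝒮 ω).card : ℝ) - Fintype.card Y * Fintype.card X - ρ * W
        - γ / 2 * W := by
      rw [hWdef]
      field_simp
    rw [e1]
    linarith
  have hupp : ∀ ω, B (ux ω) (vy ω) ≤ (1 + γ / 2) * W := by
    intro ω
    have h1 := hpos (fun x => 1 - ux ω x) (vy ω)
      (fun x => ⟨by linarith [(hux ω x).2], by linarith [(hux ω x).1]⟩) (hvy ω)
    rw [hident2 ω, hone, hcardS]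
    have h2 : -(γ / 2 * W) ≤ B (fun x => 1 - ux ω x) (vy ω) := h1
    have h3 : ((𝒮 ω).card : ℝ) ≤ Fintype.card Y := by
      exact_mod_cast Finset.card_le_univ _
    have h4 := mul_le_mul_of_nonneg_left h3 hcX.le
    linarith
  have hE : (η - ρ - γ / 2) * W ≤ ∑ ω, p ω * B (ux ω) (vy ω) := by
    have h1 : ∑ ω, p ω * ((((𝒳 ω).card / (Fintype.card X : ℝ))
        + ((𝒮 ω).card / (Fintype.card Y : ℝ)) - 1 - ρ - γ / 2) * W)
        ≤ ∑ ω, p ω * B (ux ω) (vy ω) :=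
      Finset.sum_le_sum fun ω _ => mul_le_mul_of_nonneg_left (hlow ω) (hp ω)
    have h2 : ∑ ω, p ω * ((((𝒳 ω).card / (Fintype.card X : ℝ))
        + ((𝒮 ω).card / (Fintype.card Y : ℝ)) - 1 - ρ - γ / 2) * W)
        = (∑ ω, p ω * ((𝒳 ω).card / (Fintype.card X : ℝ))
          + ∑ ω, p ω * ((𝒮 ω).card / (Fintype.card Y : ℝ))
          - (∑ ω, p ω) * (1 + ρ + γ / 2)) * W := by
      rw [Finset.sum_mul, ← Finset.sum_add_distrib, ← Finset.sum_sub_distrib, Finset.sum_mul]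
      refine Finset.sum_congr rfl fun ω _ => ?_
      ring
    rw [h2, hp1] at h1
    have h3 : (η - ρ - γ / 2) * W ≤ (∑ ω, p ω * ((𝒳 ω).card / (Fintype.card X : ℝ))
          + ∑ ω, p ω * ((𝒮 ω).card / (Fintype.card Y : ℝ))
          - 1 * (1 + ρ + γ / 2)) * W :=
      mul_le_mul_of_nonneg_right (by linarith) hW.le
    exact h3.trans h1
  -- the small relaxations
  have hbad : ∑ ω, (if a < s ω then p ω else 0) ≤ η / 8 := by
    refine le_trans ?_ hNa
    rw [le_div_iff₀ ha, Finset.sum_mul]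
    refine le_trans (Finset.sum_le_sum fun ω _ => ?_) hN
    split_ifs with h'
    · exact mul_le_mul_of_nonneg_left h'.le (hp ω)
    · rw [zero_mul]
      exact mul_nonneg (hp ω) (hs ω)
  by_contra hcon
  push Not at hcon
  have h6 : ∀ ω, B (ux ω) (vy ω)
      ≤ γ * W + (if a < s ω then 3 / 2 * W else 0) := by
    intro ω
    by_cases h' : a < s ω
    · rw [if_pos h']
      have h1 := hupp ω
      have h2 : γ / 2 * W ≤ 1 / 2 * W := mul_le_mul_of_nonneg_right (by linarith) hW.le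
      have h3 : 0 ≤ γ * W := by positivity
      linarith
    · rw [if_neg h', add_zero, ← hZ ω]
      exact (hcon ω (not_lt.1 h')).le
  have h7 : ∑ ω, p ω * B (ux ω) (vy ω) ≤ γ * W + 3 / 2 * W * (η / 8) := by
    have h8 : ∑ ω, p ω * B (ux ω) (vy ω) ≤ ∑ ω, (p ω * (γ * W)
        + 3 / 2 * W * (if a < s ω then p ω else 0)) := by
      refine Finset.sum_le_sum fun ω _ => ?_
      have h9 := mul_le_mul_of_nonneg_left (h6 ω) (hp ω)
      refine h9.trans (le_of_eq ?_)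
      split_ifs <;> ring
    rw [Finset.sum_add_distrib, ← Finset.sum_mul, hp1, one_mul, ← Finset.mul_sum] at h8
    have h10 : (0 : ℝ) ≤ 3 / 2 * W := by positivity
    have h11 := mul_le_mul_of_nonneg_left hbad h10
    linarith
  have h12 : (η - ρ - γ / 2) * W ≤ (γ + 3 / 16 * η) * W := by
    linarith
  have h13 := le_of_mul_le_mul_right h12 hW
  linarith

end SDX4
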