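import Pool.Agent.Helper70.SDX.AvgBack
import Pool.Agent.Helper97.SDX.AvgPerm

/-!
# SDX4, row A5: averages over the background and over the `m`-sets
-/

set_option autoImplicit false

open scoped BigOperators

namespace SDX4

theorem avg_backC {n m b : ℕ} (e : Fin m × Fin b ↪ Fin n) (G : (Fin n → Bool) → ℝ) (γ : ℝ)
    (h : γ * 2 ^ n ≤ ∑ x, G x) :
    ∃ z : Fin n → Bool, γ * 2 ^ (m * b) ≤ ∑ x : Fin m × Fin b → Bool, G (Function.extend e x z) := by
  by_contra hcon
  push Not at hcon
  have h1 := SDX.h70.sum_back e G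
  have h2 : ∑ z : Fin n → Bool, ∑ y : Fin m × Fin b → Bool, G (Function.extend e y z)
      < ∑ _z : Fin n → Bool, γ * 2 ^ (m * b) :=
    Finset.sum_lt_sum_of_nonempty Finset.univ_nonempty fun z _ => hcon z
  rw [h1, Finset.sum_const, Finset.card_univ, Fintype.card_fun, Fintype.card_bool,
    Fintype.card_fin, nsmul_eq_mul] at h2
  push_cast at h2
  have h3 : (0 : ℝ) < 2 ^ (m * b) := by positivity
  nlinarith

theorem avg_setC {n m : ℕ} {F : Type} [Fintype F] [Nonempty F] (gr : F → Finset (Fin n))
    (hgr : ∀ f, (gr f).card = m) (G : Finset (Fin n) → ℝ) (γ : ℝ)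
    (h : γ * (n.choose m : ℝ) ≤ ∑ T ∈ (Finset.univ : Finset (Fin n)).powersetCard m, G T) :
    ∃ π : Equiv.Perm (Fin n), γ * Fintype.card F ≤ ∑ f, G ((gr f).map π.toEmbedding) := by
  classical
  by_contra hcon
  push Not at hcon
  obtain ⟨f₀⟩ := (inferInstance : Nonempty F)
  set N : ℝ := ∑ π : Equiv.Perm (Fin n), G ((gr f₀).map π.toEmbedding) with hN
  have hT : ∀ T : Finset (Fin n), T.card = m →
      ∑ π : Equiv.Perm (Fin n), G (T.map π.toEmbedding) = N := fun T h =>
    SDX.h97.sum_perm G T (gr f₀) (by rw [h, hgr])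
  -- the sum over all sets
  have h1 : (n.choose m : ℝ) * N = (Fintype.card (Equiv.Perm (Fin n)) : ℝ) *
      ∑ T ∈ (Finset.univ : Finset (Fin n)).powersetCard m, G T := by
    have e1 : ∑ T ∈ (Finset.univ : Finset (Fin n)).powersetCard m,
        ∑ π : Equiv.Perm (Fin n), G (T.map π.toEmbedding) = (n.choose m : ℝ) * N := by
      rw [Finset.sum_congr rfl fun T hT' => hT T (Finset.mem_powersetCard.1 hT').2,
        Finset.sum_const, Finset.card_powersetCard, Finset.card_univ, Fintype.card_fin,
        nsmul_eq_mul]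
    rw [← e1, Finset.sum_comm]
    have e2 : ∀ π : Equiv.Perm (Fin n),
        ∑ T ∈ (Finset.univ : Finset (Fin n)).powersetCard m, G (T.map π.toEmbedding)
        = ∑ T ∈ (Finset.univ : Finset (Fin n)).powersetCard m, G T := by
      intro π
      refine Finset.sum_bij (fun T _ => T.map π.toEmbedding) ?_ ?_ ?_ ?_
      · intro T hT'
        rw [Finset.mem_powersetCard] at hT' ⊢
        exact ⟨Finset.subset_univ _, by rw [Finset.card_map]; exact hT'.2⟩
      · intro T _ T' _ h
        exact Finset.map_injective _ h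
      · intro T hT'
        rw [Finset.mem_powersetCard] at hT'
        refine ⟨T.map π.symm.toEmbedding, ?_, ?_⟩
        · rw [Finset.mem_powersetCard]
          exact ⟨Finset.subset_univ _, by rw [Finset.card_map]; exact hT'.2⟩
        · rw [Finset.map_map]
          convert Finset.map_refl (s := T) using 2
          ext x
          simp
      · intro T _
        rfl
    rw [Finset.sum_congr rfl fun π _ => e2 π, Finset.sum_const, Finset.card_univ, nsmul_eq_mul]
  -- the sum over all `f`
  have h2 : (Fintype.card F : ℝ) * N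
      < (Fintype.card (Equiv.Perm (Fin n)) : ℝ) * (γ * Fintype.card F) := by
    have e3 : (Fintype.card F : ℝ) * N = ∑ π : Equiv.Perm (Fin n), ∑ f,
        G ((gr f).map π.toEmbedding) := by
      rw [Finset.sum_comm, Finset.sum_congr rfl fun f _ => hT (gr f) (hgr f), Finset.sum_const,
        Finset.card_univ, nsmul_eq_mul]
    rw [e3]
    refine (Finset.sum_lt_sum_of_nonempty Finset.univ_nonempty fun π _ => hcon π).trans_le ?_
    rw [Finset.sum_const, Finset.card_univ, nsmul_eq_mul]
  have hF : (0 : ℝ) < Fintype.card F := by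
    exact_mod_cast Fintype.card_pos_iff.2 ⟨f₀⟩
  have hP : (0 : ℝ) < Fintype.card (Equiv.Perm (Fin n)) := by
    exact_mod_cast Fintype.card_pos
  have h3 : N < (Fintype.card (Equiv.Perm (Fin n)) : ℝ) * γ := by
    have : (Fintype.card F : ℝ) * N
        < (Fintype.card F : ℝ) * ((Fintype.card (Equiv.Perm (Fin n)) : ℝ) * γ) := by
      linarith
    exact lt_of_mul_lt_mul_left this hF.le
  have hle : (gr f₀).card ≤ n := by
    have := Finset.card_le_univ (gr f₀)
    rwa [Fintype.card_fin] at this
  have hC : (0 : ℝ) < n.choose m := by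
    rw [hgr] at hle
    exact_mod_cast Nat.choose_pos hle
  have h4 : (n.choose m : ℝ) * N
      < (n.choose m : ℝ) * ((Fintype.card (Equiv.Perm (Fin n)) : ℝ) * γ) :=
    mul_lt_mul_of_pos_left h3 hC
  have h5 := mul_le_mul_of_nonneg_left h hP.le
  rw [h1] at h4
  linarith

end SDX4
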