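import Pool.Agent.Helper97.SDX.Pd
import Pool.Agent.Helper71.SDX.Cube

/-!
# SDX4, row A1: the Fourier coefficients of `pd`
-/

set_option autoImplicit false

open scoped BigOperators Matrix

namespace SDX4

open SDX SDX.h71

/-- symmetry of the coefficients -/
theorem coef_symm {m : ℕ} (K K' : Finset (Fin m)) (h : K.card = K'.card) :
    coef K (pd m) = coef K' (pd m) := by
  classical
  obtain ⟨σ, hσ⟩ : ∃ σ : Equiv.Perm (Fin m), K.map σ.toEmbedding = K' := by
    let g : {x // x ∈ K} ≃ {x // x ∈ K'} := Finset.equivOfCardEq h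
    refine ⟨g.extendSubtype, ?_⟩
    refine Finset.eq_of_subset_of_card_le ?_ (by rw [Finset.card_map, h])
    intro y hy
    obtain ⟨x, hx, rfl⟩ := Finset.mem_map.1 hy
    exact g.extendSubtype_mem x hx
  rw [coef, coef]
  congr 1
  rw [← Equiv.sum_comp (Equiv.arrowCongr σ.symm (Equiv.refl Bool)) (fun y => pd m y * chr K y)]
  refine Finset.sum_congr rfl fun y _ => ?_
  have h0 : (Equiv.arrowCongr σ.symm (Equiv.refl Bool)) y = y ∘ σ := by
    funext i
    simp [Equiv.arrowCongr]
  rw [h0]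
  have h1 : pd m (y ∘ σ) = pd m y := by
    unfold pd chr ssum
    congr 2
    · exact Equiv.prod_comp σ (fun i => sg (y i))
    · exact Equiv.sum_comp σ (fun i => sg (y i))
  have h2 : chr K (y ∘ σ) = chr K' y := by
    rw [← hσ, chr, chr, Finset.prod_map]
    rfl
  rw [h1, h2]

/-- the coefficient of level `k` -/
noncomputable def cc (m k : ℕ) : ℝ :=
  coef (Finset.univ.filter fun i : Fin m => i.val < k) (pd m)

theorem coef_eq {m : ℕ} (K : Finset (Fin m)) : coef K (pd m) = cc m K.card := by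
  have hle : K.card ≤ m := by simpa using Finset.card_le_univ K
  refine coef_symm _ _ ?_
  rw [Fin.card_filter_val_lt, min_eq_right hle]

theorem cc_zero {m : ℕ} (hm : Odd m) : cc m 0 = 1 := by
  have h1 := pd_exact m hm 1 (by simp)
  simp only [Polynomial.eval_one, mul_one] at h1
  rw [cc, coef]
  have h2 : (Finset.univ.filter fun i : Fin m => i.val < 0) = ∅ := by simp
  rw [h2]
  simp only [chr_empty, mul_one, Fintype.card_fin]
  rw [h1]
  field_simp

theorem cc_rec {m : ℕ} (hm : Odd m) (k : ℕ) (hk : k + 1 ≤ m) :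
    (k : ℝ) * cc m (k - 1) + ((m : ℝ) - k) * cc m (k + 1) = 0 := by
  classical
  set I := Finset.univ.filter fun i : Fin m => i.val < k with hI
  have hc : I.card = k := by rw [hI, Fin.card_filter_val_lt, min_eq_right (by omega)]
  have h1 := pd_kill m hm (chr I) (chr_mem_Deg (by omega))
  have h2 : ∀ y : Fin m → Bool, pd m y * (ssum y * chr I y)
      = ∑ i, pd m y * chr (symmDiff {i} I) y := by
    intro y
    rw [ssum, Finset.sum_mul, Finset.mul_sum]
    refine Finset.sum_congr rfl fun i _ => ?_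
    rw [← chr_mul]
    simp [chr]
  rw [Finset.sum_congr rfl fun y _ => h2 y, Finset.sum_comm] at h1
  have h3 : ∀ i : Fin m, ∑ y, pd m y * chr (symmDiff {i} I) y
      = 2 ^ m * (if i ∈ I then cc m (k - 1) else cc m (k + 1)) := by
    intro i
    have h4 : ∑ y, pd m y * chr (symmDiff {i} I) y = 2 ^ m * coef (symmDiff {i} I) (pd m) := by
      rw [coef, Fintype.card_fin]
      field_simp
    rw [h4, coef_eq]
    congr 1
    split_ifs with hi
    · congr 1
      have : symmDiff {i} I = I.erase i := by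
        ext x
        simp only [Finset.mem_symmDiff, Finset.mem_singleton, Finset.mem_erase]
        constructor
        · rintro (⟨rfl, h⟩ | ⟨h, h'⟩)
          · exact absurd hi h
          · exact ⟨h', h⟩
        · rintro ⟨h, h'⟩
          exact Or.inr ⟨h', h⟩
      rw [this, Finset.card_erase_of_mem hi, hc]
    · congr 1
      have : symmDiff {i} I = insert i I := by
        ext x
        simp only [Finset.mem_symmDiff, Finset.mem_singleton, Finset.mem_insert]
        constructor
        · rintro (⟨rfl, h⟩ | ⟨h, h'⟩)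
          · exact Or.inl rfl
          · exact Or.inr h
        · rintro (rfl | h)
          · exact Or.inl ⟨rfl, hi⟩
          · refine Or.inr ⟨h, ?_⟩
            rintro rfl
            exact hi h
      rw [this, Finset.card_insert_of_notMem hi, hc]
  rw [Finset.sum_congr rfl fun i _ => h3 i, ← Finset.mul_sum] at h1
  have h5 : ∑ i : Fin m, (if i ∈ I then cc m (k - 1) else cc m (k + 1))
      = (k : ℝ) * cc m (k - 1) + ((m : ℝ) - k) * cc m (k + 1) := by
    rw [Finset.sum_ite, Finset.sum_const, Finset.sum_const, Finset.filter_mem_eq_inter,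
      Finset.univ_inter, hc, nsmul_eq_mul, nsmul_eq_mul]
    have : (Finset.univ.filter fun i => i ∉ I).card = m - k := by
      rw [Finset.filter_notMem_eq_sdiff, ← Finset.compl_eq_univ_sdiff, Finset.card_compl,
        Fintype.card_fin, hc]
    rw [this, Nat.cast_sub (by omega)]
  rw [h5] at h1
  have h6 : (2 : ℝ) ^ m ≠ 0 := by positivity
  exact (mul_eq_zero.1 h1).resolve_left h6

/-- the weight of level `k` -/
theorem level {m : ℕ} (hm : Odd m) (k : ℕ) (hk : k + 2 ≤ m) :
    (m.choose (k + 2) : ℝ) * cc m (k + 2) ^ 2 ≤ 2 * ((m.choose k : ℝ) * cc m k ^ 2) := by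
  have h1 := cc_rec hm (k + 1) (by omega)
  simp only [Nat.add_sub_cancel] at h1
  push_cast at h1
  have h2 : (m.choose (k + 1) : ℝ) * (k + 1) = m.choose k * (m - k) := by
    have := Nat.choose_succ_right_eq m k
    have h : (m.choose (k + 1) : ℝ) * ((k + 1 : ℕ) : ℝ) = m.choose k * ((m - k : ℕ) : ℝ) := by
      exact_mod_cast this
    rw [Nat.cast_sub (by omega)] at h
    push_cast at h
    exact h
  have h3 : (m.choose (k + 2) : ℝ) * (k + 2) = m.choose (k + 1) * (m - k - 1) := by
    have := Nat.choose_succ_right_eq m (k + 1)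
    have h : (m.choose (k + 2) : ℝ) * ((k + 1 + 1 : ℕ) : ℝ)
        = m.choose (k + 1) * ((m - (k + 1) : ℕ) : ℝ) := by
      exact_mod_cast this
    rw [Nat.cast_sub (by omega)] at h
    push_cast at h
    linarith
  set x := cc m k
  set y := cc m (k + 2)
  set M : ℝ := (m : ℝ) - k - 1 with hM
  have hM1 : 1 ≤ M := by
    have : ((k + 2 : ℕ) : ℝ) ≤ m := by exact_mod_cast hk
    push_cast at this
    rw [hM]
    linarith
  have hk0 : (0 : ℝ) ≤ k := Nat.cast_nonneg k
  have h4 : M * y = -((k + 1) * x) := by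
    have : ((m : ℝ) - (k + 1)) = M := by rw [hM]; ring
    rw [this] at h1
    linarith
  have h5 : (m.choose (k + 2) : ℝ) * ((k + 2) * (k + 1)) = m.choose k * ((M + 1) * M) := by
    have e1 : (m : ℝ) - k = M + 1 := by rw [hM]; ring
    rw [e1] at h2
    calc (m.choose (k + 2) : ℝ) * ((k + 2) * (k + 1))
        = (m.choose (k + 2) * (k + 2)) * (k + 1) := by ring
      _ = (m.choose (k + 1) * (k + 1)) * M := by rw [h3]; ring
      _ = _ := by rw [h2]; ring
  have hC : (0 : ℝ) ≤ m.choose k := Nat.cast_nonneg _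
  -- multiply by `(k + 2) (k + 1) M ^ 2`
  have h6 : 0 < (k + 2 : ℝ) * (k + 1) * M ^ 2 := by positivity
  refine le_of_mul_le_mul_right ?_ h6
  have h7 : (m.choose (k + 2) : ℝ) * y ^ 2 * ((k + 2) * (k + 1) * M ^ 2)
      = m.choose k * ((M + 1) * M) * ((k + 1) ^ 2 * x ^ 2) := by
    calc (m.choose (k + 2) : ℝ) * y ^ 2 * ((k + 2) * (k + 1) * M ^ 2)
        = (m.choose (k + 2) * ((k + 2) * (k + 1))) * (M * y) ^ 2 := by ring
      _ = _ := by rw [h5, h4]; ring
  rw [h7]
  have h8 : (M + 1) * M * (k + 1) ^ 2 ≤ 2 * ((k + 2) * (k + 1) * M ^ 2) := by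
    have h9 : (M + 1) * M ≤ 2 * M ^ 2 := by nlinarith
    have h10 : ((k : ℝ) + 1) ^ 2 ≤ (k + 2) * (k + 1) := by nlinarith
    calc (M + 1) * M * ((k : ℝ) + 1) ^ 2 ≤ 2 * M ^ 2 * ((k + 2) * (k + 1)) :=
          mul_le_mul h9 h10 (by positivity) (by positivity)
      _ = _ := by ring
  have h11 : 0 ≤ (m.choose k : ℝ) * x ^ 2 := by positivity
  nlinarith [mul_le_mul_of_nonneg_left h8 h11]

theorem level_le {m : ℕ} (hm : Odd m) : ∀ k : ℕ, k ≤ m →
    (m.choose k : ℝ) * cc m k ^ 2 ≤ Real.sqrt 2 ^ k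
  | 0, _ => by
    rw [cc_zero hm]
    simp
  | 1, h => by
    have h1 := cc_rec hm 0 (by omega)
    have hm' : (m : ℝ) ≠ 0 := by
      have := hm.pos
      positivity
    simp only [Nat.cast_zero, zero_mul, zero_add, sub_zero] at h1
    have h2 : cc m 1 = 0 := (mul_eq_zero.1 h1).resolve_left hm'
    rw [h2]
    simp
  | k + 2, h => by
    refine (level hm k h).trans ?_
    have h1 := level_le hm k (by omega)
    have h2 : Real.sqrt 2 ^ (k + 2) = 2 * Real.sqrt 2 ^ k := by
      rw [pow_add, Real.sq_sqrt (by norm_num)]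
      ring
    rw [h2]
    linarith

theorem cc_one {m : ℕ} (hm : Odd m) : cc m 1 = 0 := by
  have h1 := cc_rec hm 0 (by have := hm.pos; omega)
  have hm' : (m : ℝ) ≠ 0 := by
    have := hm.pos
    positivity
  simp only [Nat.cast_zero, zero_mul, zero_add, sub_zero] at h1
  exact (mul_eq_zero.1 h1).resolve_left hm'

theorem pd_coef_sum {m b : ℕ} (hm : Odd m) (hb : 2 ≤ b) :
    ∑ A ∈ (Finset.univ : Finset (Finset (Fin m))).erase ∅,
      SDX.coef A (SDX.pd m) ^ 2 / (b : ℝ) ^ A.card ≤ 16 / (b : ℝ) ^ 2 := by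
  have hb' : (2 : ℝ) ≤ b := by exact_mod_cast hb
  have hb0 : (0 : ℝ) < b := by linarith
  set f : ℕ → ℝ := fun k => if k = 0 then 0 else cc m k ^ 2 / (b : ℝ) ^ k with hf
  have h1 : ∑ A ∈ (Finset.univ : Finset (Finset (Fin m))).erase ∅,
      SDX.coef A (SDX.pd m) ^ 2 / (b : ℝ) ^ A.card
      = ∑ A ∈ (Finset.univ : Finset (Fin m)).powerset, f A.card := by
    rw [Finset.powerset_univ, ← Finset.sum_erase (s := Finset.univ) (a := ∅)]
    · refine Finset.sum_congr rfl fun A hA => ?_
      have hA' : A.card ≠ 0 := by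
        rw [Finset.mem_erase] at hA
        exact fun h => hA.1 (Finset.card_eq_zero.1 h)
      rw [hf]
      simp only [hA', if_false]
      rw [coef_eq]
    · simp [hf]
  rw [h1, Finset.sum_powerset_apply_card, Finset.card_univ, Fintype.card_fin]
  set t : ℝ := Real.sqrt 2 / b with ht
  have hs2 : Real.sqrt 2 ≤ 1.42 := by
    rw [Real.sqrt_le_left (by norm_num)]
    norm_num
  have ht0 : 0 ≤ t := by positivity
  have ht1 : t ≤ 0.71 := by
    rw [ht, div_le_iff₀ hb0]
    nlinarith
  have h2 : ∀ k ∈ Finset.range (m + 1), m.choose k • f k ≤ (if k < 2 then 0 else t ^ k) := by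
    intro k hk
    rw [Finset.mem_range] at hk
    rw [nsmul_eq_mul]
    rcases k with _ | _ | k
    · simp [hf]
    · simp [hf, cc_one hm]
    · have h3 := level_le hm (k + 2) (by omega)
      have h4 : ¬ (k + 2 < 2) := by omega
      have h4' : f (k + 2) = cc m (k + 2) ^ 2 / (b : ℝ) ^ (k + 2) := by
        rw [hf]
        exact if_neg (by omega)
      change (m.choose (k + 2) : ℝ) * f (k + 2) ≤ if k + 2 < 2 then 0 else t ^ (k + 2)
      rw [if_neg h4, h4', ht, div_pow, mul_div_assoc']
      exact div_le_div_of_nonneg_right h3 (by positivity)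
  refine (Finset.sum_le_sum h2).trans ?_
  obtain ⟨n, rfl⟩ : ∃ n, m = n + 1 := ⟨m - 1, by have := hm.pos; omega⟩
  rw [Finset.sum_range_succ', Finset.sum_range_succ']
  have h6 : ∀ k, (if k + 1 + 1 < 2 then 0 else t ^ (k + 1 + 1)) = t ^ 2 * t ^ k := fun k => by
    rw [if_neg (by omega)]
    ring
  simp only [h6, ← Finset.mul_sum]
  have h7 := mul_neg_geom_sum t n
  have h8 : 0 ≤ ∑ i ∈ Finset.range n, t ^ i := Finset.sum_nonneg fun i _ => pow_nonneg ht0 i
  have h9 : 0 ≤ t ^ n := pow_nonneg ht0 n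
  have h10 : ∑ i ∈ Finset.range n, t ^ i ≤ 8 := by nlinarith
  have h11 : t ^ 2 = 2 / (b : ℝ) ^ 2 := by
    rw [ht, div_pow, Real.sq_sqrt (by norm_num)]
  have h12 : t ^ 2 * ∑ i ∈ Finset.range n, t ^ i ≤ t ^ 2 * 8 :=
    mul_le_mul_of_nonneg_left h10 (by positivity)
  have h13 : t ^ 2 * 8 = 16 / (b : ℝ) ^ 2 := by
    rw [h11]
    ring
  norm_num
  linarith

end SDX4
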