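import Pool.Agent.LIFT.Numbers4

/-!
# SDX4: the numbers (row A3, helper44)

`lam`, `b`, `c` are constants, `m` is the largest odd number with `m * b ≤ n`.
-/

set_option autoImplicit false
set_option linter.unusedVariables false

open Filter Topology

namespace SDX4

namespace h44

/-- `24 ^ m` -/
theorem pow24m (m : ℕ) : (24 : ℝ) ^ m ≤ Real.exp (7 / 2 * m) := by
  calc (24 : ℝ) ^ m ≤ 32 ^ m := pow_le_pow_left₀ (by norm_num) (by norm_num) _
    _ = 2 ^ (5 * m) := by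
        rw [show (32 : ℝ) = 2 ^ 5 by norm_num, ← pow_mul]
    _ ≤ Real.exp (7 / 10 * ((5 * m : ℕ) : ℝ)) := LIFT.h44.two_pow_le _
    _ = Real.exp (7 / 2 * m) := by
        congr 1
        push_cast
        ring

/-- `sqrt (24 ^ m)` -/
theorem sqrt24m (m : ℕ) : Real.sqrt (24 ^ m) ≤ Real.exp (2 * m) := by
  rw [Real.sqrt_le_left (by positivity)]
  refine (pow24m m).trans ?_
  rw [← Real.exp_nat_mul]
  apply Real.exp_le_exp.2
  have : (0 : ℝ) ≤ m := Nat.cast_nonneg _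
  push_cast
  linarith

/-- `sqrt (24 ^ m * r)` for `r <= 2 exp (m / 2)` -/
theorem sqrt24mr (m : ℕ) {r : ℝ} (h0 : 0 ≤ r) (hr : r ≤ 2 * Real.exp (m / 2)) :
    Real.sqrt (24 ^ m * r) ≤ 2 * Real.exp (2 * m) := by
  rw [Real.sqrt_le_left (by positivity)]
  calc (24 : ℝ) ^ m * r ≤ Real.exp (7 / 2 * m) * (2 * Real.exp (m / 2)) :=
        mul_le_mul (pow24m m) hr h0 (Real.exp_pos _).le
    _ ≤ (2 * Real.exp (2 * m)) ^ 2 := by
        have h2 : (2 * Real.exp (2 * (m : ℝ))) ^ 2 =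
            4 * (Real.exp (7 / 2 * m) * Real.exp (m / 2)) := by
          rw [mul_pow, ← Real.exp_nat_mul, ← Real.exp_add]
          norm_num
          ring
        rw [h2]
        have h3 : 0 < Real.exp (7 / 2 * (m : ℝ)) * Real.exp (m / 2) := by positivity
        linarith

/-- `sqrt m` -/
theorem sqrt_le_exp (m : ℕ) : Real.sqrt m ≤ Real.exp m := by
  rw [Real.sqrt_le_left (by positivity)]
  have h1 : (m : ℝ) ≤ Real.exp m := by
    have := Real.add_one_le_exp (m : ℝ)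
    linarith
  have h2 : (1 : ℝ) ≤ Real.exp m := Real.one_le_exp (Nat.cast_nonneg _)
  nlinarith

/-- everything for one `m` -/
theorem in_m (c₀ γ : ℝ) (hc : 0 < c₀) (hγ : 0 < γ) (hγ1 : γ ≤ 1) (b₀ : ℕ) :
    ∃ (lam : ℝ) (b : ℕ), 1 < lam ∧ 0 < b ∧ b₀ ≤ b ∧ lam ^ 8 ≤ 4 * b ∧
      ∃ m₁ : ℕ, ∀ m : ℕ, m₁ ≤ m → 3 ≤ m ∧
      2 * (2 * Real.sqrt m) / lam ^ (m / 4 + 1) * Real.sqrt (24 ^ m) ≤ γ / 2 ∧
      ∀ r : ℕ, 0 < r → (r : ℝ) ≤ 2 * Real.exp (m / 2) →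
        2 * (2 * (2 * Real.sqrt m) * (4 * r / γ) / lam ^ (m / 4 + 1) * Real.sqrt (24 ^ m * r))
          + c₀ / (4 * (m : ℝ) ^ 2)
            * (2 * (2 * Real.sqrt m) / lam ^ (m / 4 + 1) * Real.sqrt (24 ^ m))
          + c₀ / (4 * (m : ℝ) ^ 2) * γ / 8 + Real.sqrt (2 ^ m / (b : ℝ) ^ (m - 1))
          < c₀ / (4 * (m : ℝ) ^ 2) * γ / 2 := by
  set lam : ℝ := Real.exp 40 with hlam
  have hlam1 : 1 < lam := Real.one_lt_exp_iff.2 (by norm_num)
  obtain ⟨b, hb⟩ := exists_nat_ge (max (max (b₀ : ℝ) (lam ^ 8)) (max (Real.exp 8) 1))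
  have hb1 : (b₀ : ℝ) ≤ b := le_trans (le_trans (le_max_left _ _) (le_max_left _ _)) hb
  have hb2 : lam ^ 8 ≤ b := le_trans (le_trans (le_max_right _ _) (le_max_left _ _)) hb
  have hb3 : Real.exp 8 ≤ b := le_trans (le_trans (le_max_left _ _) (le_max_right _ _)) hb
  have hb4 : (1 : ℝ) ≤ b := le_trans (le_trans (le_max_right _ _) (le_max_right _ _)) hb
  have hb0 : (0 : ℝ) < b := by linarith
  have hex0 : Tendsto (fun q : ℕ => Real.exp (-(q : ℝ))) atTop (𝓝 0) :=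
    Real.tendsto_exp_neg_atTop_nhds_zero.comp tendsto_natCast_atTop_atTop
  have hex : Tendsto (fun q : ℕ => (q : ℝ) ^ 2 * Real.exp (-(q : ℝ))) atTop (𝓝 0) :=
    (Real.tendsto_pow_mul_exp_neg_atTop_nhds_zero 2).comp tendsto_natCast_atTop_atTop
  have hT : 0 < γ / 64 := by positivity
  have hT2 : 0 < c₀ * γ ^ 2 / 16384 := by positivity
  obtain ⟨m₁, hm₁⟩ := (((hex0.eventually (gt_mem_nhds hT)).and
    (hex.eventually (gt_mem_nhds hT2))).and (eventually_ge_atTop 3)).exists_forall_of_atTop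
  refine ⟨lam, b, hlam1, by exact_mod_cast hb0, by exact_mod_cast hb1, by linarith, m₁,
    fun m hm => ?_⟩
  obtain ⟨⟨h1, h1'⟩, h3⟩ := hm₁ m hm
  have hm0 : (3 : ℝ) ≤ m := by exact_mod_cast h3
  set δ : ℝ := c₀ / (4 * (m : ℝ) ^ 2) with hδ
  have hδ0 : 0 < δ := by positivity
  -- `exp (-m)` against `δ`
  have hδe : 128 / γ * Real.exp (-(m : ℝ)) < δ * (γ / 16) := by
    have e1 : δ * (γ / 16) = (c₀ * γ ^ 2 / 16384) * (256 / (γ * (m : ℝ) ^ 2)) := by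
      rw [hδ]
      field_simp
      norm_num
    rw [e1]
    have e2 : 0 < 256 / (γ * (m : ℝ) ^ 2) := by positivity
    have e3 : 128 / γ * Real.exp (-(m : ℝ)) ≤
        (m : ℝ) ^ 2 * Real.exp (-(m : ℝ)) * (256 / (γ * (m : ℝ) ^ 2)) := by
      have e4 : (m : ℝ) ^ 2 * Real.exp (-(m : ℝ)) * (256 / (γ * (m : ℝ) ^ 2)) =
          256 / γ * Real.exp (-(m : ℝ)) := by
        field_simp
      rw [e4]
      apply mul_le_mul_of_nonneg_right _ (Real.exp_pos _).le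
      gcongr
      norm_num
    refine e3.trans_lt ?_
    exact mul_lt_mul_of_pos_right h1' e2
  have hδe2 : Real.exp (-(m : ℝ)) < δ * (γ / 16) := by
    refine lt_of_le_of_lt ?_ hδe
    have e1 : (1 : ℝ) ≤ 128 / γ := by
      rw [le_div_iff₀ hγ]
      linarith
    have := Real.exp_pos (-(m : ℝ))
    nlinarith
  have g1 : Real.sqrt m ≤ Real.exp m := sqrt_le_exp m
  have g4 : Real.exp (10 * m) ≤ lam ^ (m / 4 + 1) := by
    rw [hlam, ← Real.exp_nat_mul]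
    apply Real.exp_le_exp.2
    have e1 : m ≤ 4 * (m / 4 + 1) := by omega
    have e2 : (m : ℝ) ≤ 4 * ((m / 4 + 1 : ℕ) : ℝ) := by exact_mod_cast e1
    linarith
  -- the factor without `r`
  have fA : 2 * (2 * Real.sqrt m) / lam ^ (m / 4 + 1) * Real.sqrt (24 ^ m) ≤ γ / 16 := by
    have e1 : 2 * (2 * Real.sqrt m) / lam ^ (m / 4 + 1) * Real.sqrt (24 ^ m) ≤
        2 * (2 * Real.exp m) / Real.exp (10 * m) * Real.exp (2 * m) := by
      have := sqrt24m m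
      gcongr
    refine e1.trans ?_
    have e2 : 2 * (2 * Real.exp (m : ℝ)) / Real.exp (10 * m) * Real.exp (2 * m) =
        4 * (Real.exp (m : ℝ) * (Real.exp (10 * m))⁻¹ * Real.exp (2 * m)) := by ring
    rw [e2, ← Real.exp_neg, ← Real.exp_add, ← Real.exp_add]
    have e3 : Real.exp ((m : ℝ) + -(10 * m) + 2 * m) ≤ Real.exp (-(m : ℝ)) :=
      Real.exp_le_exp.2 (by linarith)
    linarith
  -- the term with `r`
  have fB : ∀ r : ℕ, 0 < r → (r : ℝ) ≤ 2 * Real.exp (m / 2) →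
      2 * (2 * (2 * Real.sqrt m) * (4 * r / γ) / lam ^ (m / 4 + 1) * Real.sqrt (24 ^ m * r)) ≤
        δ * (γ / 16) := by
    intro r hr hr2
    have hr0 : (0 : ℝ) < r := by exact_mod_cast hr
    have e1 : 2 * (2 * (2 * Real.sqrt m) * (4 * r / γ) / lam ^ (m / 4 + 1) *
        Real.sqrt (24 ^ m * r)) ≤
        2 * (2 * (2 * Real.exp m) * (4 * (2 * Real.exp (m / 2)) / γ) / Real.exp (10 * m) *
          (2 * Real.exp (2 * m))) := by
      have := sqrt24mr m hr0.le hr2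
      gcongr
    refine e1.trans ?_
    have e2 : 2 * (2 * (2 * Real.exp (m : ℝ)) * (4 * (2 * Real.exp (m / 2)) / γ) /
        Real.exp (10 * m) * (2 * Real.exp (2 * m))) =
        128 / γ * (Real.exp m * Real.exp (m / 2) * (Real.exp (10 * m))⁻¹ *
          Real.exp (2 * m)) := by ring
    rw [e2, ← Real.exp_neg, ← Real.exp_add, ← Real.exp_add, ← Real.exp_add]
    have e3 : Real.exp ((m : ℝ) + m / 2 + -(10 * m) + 2 * m) ≤ Real.exp (-(m : ℝ)) :=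
      Real.exp_le_exp.2 (by linarith)
    have e4 : 128 / γ * Real.exp ((m : ℝ) + m / 2 + -(10 * m) + 2 * m) ≤
        128 / γ * Real.exp (-(m : ℝ)) :=
      mul_le_mul_of_nonneg_left e3 (by positivity)
    linarith
  -- the last term
  have fD : Real.sqrt (2 ^ m / (b : ℝ) ^ (m - 1)) ≤ Real.exp (-(m : ℝ)) := by
    rw [Real.sqrt_le_left (by positivity)]
    have k2 : Real.exp (4 * m) ≤ (b : ℝ) ^ (m - 1) := by
      refine le_trans ?_ (pow_le_pow_left₀ (Real.exp_pos _).le hb3 (m - 1))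
      rw [← Real.exp_nat_mul]
      apply Real.exp_le_exp.2
      have e1 : m ≤ 2 * (m - 1) := by omega
      have e2 : (m : ℝ) ≤ 2 * ((m - 1 : ℕ) : ℝ) := by exact_mod_cast e1
      linarith
    have k1 : (2 : ℝ) ^ m ≤ Real.exp (7 / 10 * m) := LIFT.h44.two_pow_le m
    have k3 : (2 : ℝ) ^ m / (b : ℝ) ^ (m - 1) ≤ Real.exp (7 / 10 * m) / Real.exp (4 * m) := by
      gcongr
    refine k3.trans ?_
    rw [← Real.exp_sub, ← Real.exp_nat_mul]
    apply Real.exp_le_exp.2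
    push_cast
    linarith
  refine ⟨h3, by linarith, fun r hr hr2 => ?_⟩
  have fC : δ * (2 * (2 * Real.sqrt m) / lam ^ (m / 4 + 1) * Real.sqrt (24 ^ m)) ≤
      δ * (γ / 16) := mul_le_mul_of_nonneg_left fA hδ0.le
  have hpos : 0 < δ * γ := by positivity
  have := fB r hr hr2
  linarith

end h44

/-- A3: the numbers -/
theorem numbersC (c₀ γ : ℝ) (hc : 0 < c₀) (hc1 : c₀ ≤ 1) (hγ : 0 < γ) (hγ1 : γ ≤ 1) (b₀ : ℕ) :
    ∃ (lam c : ℝ) (b : ℕ), 1 < lam ∧ 0 < c ∧ 0 < b ∧ b₀ ≤ b ∧ lam ^ 8 ≤ 4 * b ∧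
      ∃ n₀ : ℕ, ∀ n : ℕ, n₀ ≤ n → ∃ m : ℕ, Odd m ∧ 3 ≤ m ∧ m * b ≤ n ∧
      2 * (2 * Real.sqrt m) / lam ^ (m / 4 + 1) * Real.sqrt (24 ^ m) ≤ γ / 2 ∧
      ∀ r : ℕ, 0 < r → (r : ℝ) ≤ Real.exp (c * n) + 1 →
        2 * (2 * (2 * Real.sqrt m) * (4 * r / γ) / lam ^ (m / 4 + 1) * Real.sqrt (24 ^ m * r))
          + c₀ / (4 * (m : ℝ) ^ 2)
            * (2 * (2 * Real.sqrt m) / lam ^ (m / 4 + 1) * Real.sqrt (24 ^ m))
          + c₀ / (4 * (m : ℝ) ^ 2) * γ / 8 + Real.sqrt (2 ^ m / (b : ℝ) ^ (m - 1))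
          < c₀ / (4 * (m : ℝ) ^ 2) * γ / 2 := by
  obtain ⟨lam, b, h1, h2, h3, h4, m₁, h5⟩ := h44.in_m c₀ γ hc hγ hγ1 b₀
  have hb0 : (0 : ℝ) < b := by exact_mod_cast h2
  refine ⟨lam, 1 / (12 * b), b, h1, by positivity, h2, h3, h4, b * (m₁ + 4), fun n hn => ?_⟩
  set m : ℕ := 2 * ((n / b - 1) / 2) + 1 with hm
  have hq1 : b * (n / b) ≤ n := Nat.mul_div_le n b
  have hq2 : n < b * (n / b + 1) := Nat.lt_mul_div_succ n h2
  have hqq : m₁ + 4 ≤ n / b := by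
    rw [Nat.le_div_iff_mul_le h2, mul_comm]
    exact hn
  have hm1 : m ≤ n / b := by omega
  have hm2 : n / b ≤ m + 1 := by omega
  have hm3 : m₁ ≤ m := by omega
  obtain ⟨g1, g2, g3⟩ := h5 m hm3
  have g1' : (3 : ℝ) ≤ m := by exact_mod_cast g1
  refine ⟨m, ⟨_, hm⟩, g1, ?_, g2, fun r hr hr2 => g3 r hr (hr2.trans ?_)⟩
  · calc m * b ≤ n / b * b := Nat.mul_le_mul_right _ hm1
      _ = b * (n / b) := mul_comm _ _
      _ ≤ n := hq1
  · have hhi : 1 / (12 * b) * (n : ℝ) * 12 ≤ m + 2 := by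
      have h6 : (n : ℝ) ≤ b * ((m : ℝ) + 2) := by
        have h8 : n ≤ b * (m + 2) := hq2.le.trans (Nat.mul_le_mul_left _ (by omega))
        exact_mod_cast h8
      have h7 : 1 / (12 * (b : ℝ)) * n * 12 = n / b := by
        field_simp
      rw [h7, div_le_iff₀ hb0]
      linarith
    have e2 : Real.exp (1 / (12 * b) * n) ≤ Real.exp (m / 2) := by
      apply Real.exp_le_exp.2
      linarith
    have e3 : 1 ≤ Real.exp ((m : ℝ) / 2) := Real.one_le_exp (by positivity)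
    linarith

end SDX4
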