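import Pool.Agent.LIFT.Defs4
import Pool.Agent.Helper71.SDX.Cube
import Pool.Agent.Helper97.SDX.Pd

/-!
# SDX4, row A2: the function `pd m * ssum ^ 2` (helper93)
-/

set_option autoImplicit false

open scoped BigOperators Matrix

namespace SDX4

open SDX

theorem pd_one {m : ℕ} (hm : Odd m) : ∑ y, SDX.pd m y = 2 ^ m := by
  have h := pd_exact m hm 1 (by simp)
  simpa using h

/-- `pd m * ssum ^ 2` is a constant times the parity times `ssum` -/
theorem pd_ssq {m : ℕ} (y : Fin m → Bool) :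
    SDX.pd m y * (SDX.ssum y ^ 2 / (4 * (m : ℝ) ^ 2))
      = SDX.pd m y * (SDX.ssum y * (SDX.ssum y / (4 * (m : ℝ) ^ 2))) := by
  ring

theorem pd_ssq_sum {m : ℕ} (hm : Odd m) (hm3 : 3 ≤ m) :
    ∑ y, SDX.pd m y * (SDX.ssum y ^ 2 / (4 * (m : ℝ) ^ 2)) = 0 := by
  rw [Finset.sum_congr rfl fun y _ => pd_ssq y]
  refine pd_kill m hm (fun y => SDX.ssum y / (4 * (m : ℝ) ^ 2)) ?_
  have h1 : (fun y : Fin m → Bool => SDX.ssum y / (4 * (m : ℝ) ^ 2))
      = (1 / (4 * (m : ℝ) ^ 2)) • fun y : Fin m → Bool => SDX.ssum y := by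
    funext y
    rw [Pi.smul_apply, smul_eq_mul]
    ring
  rw [h1]
  exact Submodule.smul_mem _ _ (Deg_mono (by omega) h97.ssum_mem)

theorem pd_ssq_coef {m : ℕ} (hm : Odd m) (A : Finset (Fin m)) (hA : A.card < m - 1) :
    SDX.coef A (fun y => SDX.pd m y * (SDX.ssum y ^ 2 / (4 * (m : ℝ) ^ 2))) = 0 := by
  rw [coef]
  have h1 : ∀ y : Fin m → Bool, SDX.pd m y * (SDX.ssum y ^ 2 / (4 * (m : ℝ) ^ 2)) * chr A y
      = SDX.pd m y * (SDX.ssum y * ((1 / (4 * (m : ℝ) ^ 2)) * (SDX.ssum y * chr A y))) := by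
    intro y
    ring
  have h2 : (fun y : Fin m → Bool => (1 / (4 * (m : ℝ) ^ 2)) * (SDX.ssum y * chr A y))
      ∈ Deg (Fin m) (m - 1) := by
    have h3 : (fun y : Fin m → Bool => (1 / (4 * (m : ℝ) ^ 2)) * (SDX.ssum y * chr A y))
        = (1 / (4 * (m : ℝ) ^ 2)) • fun y : Fin m → Bool => SDX.ssum y * chr A y := by
      funext y
      rfl
    rw [h3]
    refine Submodule.smul_mem _ _ (Deg_mono (j := 1 + A.card) (by omega) ?_)
    exact mul_mem_Deg h97.ssum_mem (chr_mem_Deg le_rfl)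
  rw [Finset.sum_congr rfl fun y _ => h1 y, pd_kill m hm _ h2, zero_div]

theorem pd_ssq_le {m : ℕ} (hm : Odd m) (A : Finset (Fin m)) :
    |SDX.coef A (fun y => SDX.pd m y * (SDX.ssum y ^ 2 / (4 * (m : ℝ) ^ 2)))| ≤ 1 := by
  obtain ⟨h0, h1⟩ := h97.sum_ge m hm
  have hm0 : 1 ≤ m := hm.pos
  have hm' : (1 : ℝ) ≤ m := by exact_mod_cast hm0
  have hS : 0 < |∑ z : Fin m → Bool, chr Finset.univ z / ssum z| := abs_pos.mpr h0
  have e1 : |(2 : ℝ) ^ m / ∑ z : Fin m → Bool, chr Finset.univ z / ssum z| ≤ Real.sqrt m := by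
    rw [abs_div, abs_pow, abs_two, div_le_iff₀ hS]
    exact h1
  have hs : ∀ y : Fin m → Bool, |ssum y| ≤ m := by
    intro y
    rw [ssum]
    refine (Finset.abs_sum_le_sum_abs _ _).trans ?_
    refine (Finset.sum_le_sum (g := fun _ => (1 : ℝ)) fun i _ => ?_).trans ?_
    · rw [sg]
      split_ifs <;> norm_num
    · simp
  have hsq : Real.sqrt m ≤ m := by
    rw [Real.sqrt_le_left (by linarith)]
    nlinarith
  have h2 : ∀ y : Fin m → Bool, |SDX.pd m y * (SDX.ssum y ^ 2 / (4 * (m : ℝ) ^ 2)) * chr A y|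
      ≤ 1 := by
    intro y
    have h3 : SDX.pd m y * (SDX.ssum y ^ 2 / (4 * (m : ℝ) ^ 2)) * chr A y
        = (2 ^ m / ∑ z : Fin m → Bool, chr Finset.univ z / ssum z)
          * (chr Finset.univ y * chr A y) * (ssum y / (4 * (m : ℝ) ^ 2)) := by
      have := h97.ssum_ne hm y
      rw [pd]
      field_simp
    have h4 : |ssum y / (4 * (m : ℝ) ^ 2)| = |ssum y| / (4 * (m : ℝ) ^ 2) := by
      rw [abs_div, abs_of_pos (by positivity : (0 : ℝ) < 4 * (m : ℝ) ^ 2)]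
    rw [h3, abs_mul, abs_mul, abs_mul (chr Finset.univ y), h97.chr_abs, h97.chr_abs, mul_one,
      mul_one, h4, ← mul_div_assoc, div_le_one (by positivity)]
    calc |(2 : ℝ) ^ m / ∑ z : Fin m → Bool, chr Finset.univ z / ssum z| * |ssum y|
        ≤ m * m := mul_le_mul (e1.trans hsq) (hs y) (abs_nonneg _) (by linarith)
      _ ≤ 4 * (m : ℝ) ^ 2 := by nlinarith
  rw [coef, Fintype.card_fin, abs_div, abs_of_pos (by positivity : (0 : ℝ) < (2 : ℝ) ^ m),
    div_le_one (by positivity)]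
  refine (Finset.abs_sum_le_sum_abs _ _).trans ?_
  refine (Finset.sum_le_sum fun y _ => h2 y).trans ?_
  simp

end SDX4
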