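import Mathlib
import Pool.Agent.LIFT.Rect4
import Pool.Agent.LIFT.Main4
import Pool.Agent.LIFT.Marg2
import Pool.Agent.LIFT.Factor5
import Pool.Agent.Helper74.SDX.Fool
import Pool.Agent.Helper71.SDX.Marg
import Pool.Agent.SDX4.Coef
import Pool.Agent.SDX4.Ssq
import Pool.Agent.SDX4.Num

/-!
# SDX4: the impossibility for the block structure
-/

set_option autoImplicit false

open scoped BigOperators Matrix

namespace SDX4

namespace h70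

open SDX

theorem ssum_le {m : ℕ} (y : Fin m → Bool) : |ssum y| ≤ m := by
  unfold ssum
  refine (Finset.abs_sum_le_sum_abs _ _).trans ?_
  refine (Finset.sum_le_sum (g := fun _ => (1 : ℝ)) fun i _ => ?_).trans ?_
  · cases y i <;> norm_num [sg]
  · simp

theorem ssq_le {m : ℕ} (hm : 0 < m) (y : Fin m → Bool) :
    ssum y ^ 2 / (4 * (m : ℝ) ^ 2) ≤ 1 := by
  have hm' : (0 : ℝ) < m := by exact_mod_cast hm
  have h1 : ssum y ^ 2 ≤ (m : ℝ) ^ 2 := by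
    rw [← sq_abs]
    exact pow_le_pow_left₀ (abs_nonneg _) (ssum_le y) 2
  rw [div_le_one (by positivity)]
  nlinarith

/-- the variance bound -/
theorem var_le {m b k : ℕ} (hb : 0 < b) (g : (Fin m → Bool) → ℝ)
    (h1 : ∀ A : Finset (Fin m), A.card < k → coef A g = 0)
    (h2 : ∀ A : Finset (Fin m), |coef A g| ≤ 1) :
    ∑ A ∈ (Finset.univ : Finset (Finset (Fin m))).erase ∅, coef A g ^ 2 / (b : ℝ) ^ A.card
      ≤ 2 ^ m / (b : ℝ) ^ k := by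
  have hb' : (0 : ℝ) < b := by exact_mod_cast hb
  have hb1 : (1 : ℝ) ≤ b := by exact_mod_cast hb
  have h3 : ∀ A ∈ (Finset.univ : Finset (Finset (Fin m))).erase ∅,
      coef A g ^ 2 / (b : ℝ) ^ A.card ≤ 1 / (b : ℝ) ^ k := by
    intro A _
    rcases lt_or_ge A.card k with h | h
    · rw [h1 A h]
      simp
    · have h4 : coef A g ^ 2 ≤ 1 := by
        rw [← sq_abs]
        exact pow_le_one₀ (abs_nonneg _) (h2 A)
      exact div_le_div₀ zero_le_one h4 (by positivity) (pow_le_pow_right₀ hb1 h)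
  refine (Finset.sum_le_sum h3).trans ?_
  rw [Finset.sum_const, nsmul_eq_mul, mul_one_div]
  refine div_le_div_of_nonneg_right ?_ (by positivity)
  have h5 : ((Finset.univ : Finset (Finset (Fin m))).erase ∅).card ≤ 2 ^ m := by
    refine (Finset.card_erase_le).trans ?_
    simp
  exact_mod_cast h5

end h70

open SDX h70

theorem coreC (c₀ γ ρ : ℝ) (hc : 0 < c₀) (hc1 : c₀ ≤ 1) (hγ : 0 < γ) (hγ1 : γ ≤ 1) (hρ : 0 < ρ) :
    ∃ (c : ℝ) (b : ℕ), 0 < c ∧ 0 < b ∧ ∃ n₀ : ℕ, ∀ n : ℕ, n₀ ≤ n →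
      ∃ (m : ℕ) (mu : (Fin m → Fin b) → (Fin m × Fin b → Bool) → ℝ),
      Odd m ∧ m * b ≤ n ∧ (∀ S, ∑ x, mu S x = 2 ^ (m * b)) ∧
      (∀ u : (Fin m × Fin b → Bool) → ℝ, (∀ x, 0 ≤ u x ∧ u x ≤ 1) →
        |∑ S, ∑ x, u x * mu S x - (b : ℝ) ^ m * ∑ x, u x| ≤ ρ * ((b : ℝ) ^ m * 2 ^ (m * b))) ∧
      (∀ (u : (Fin m × Fin b → Bool) → ℝ) (v : (Fin m → Fin b) → ℝ), (∀ x, 0 ≤ u x ∧ u x ≤ 1) →
        (∀ S, 0 ≤ v S ∧ v S ≤ 1) →
        -(γ / 2 * ((b : ℝ) ^ m * 2 ^ (m * b))) ≤ ∑ S, ∑ x, v S * (u x * mu S x)) ∧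
      ∀ (r : ℕ) (E : Type) [AddCommGroup E] [Module ℝ E]
        (𝓐 : AffineSubspace ℝ (E × Matrix (Fin r) (Fin r) ℝ))
        (𝒳 : Finset (Fin m × Fin b → Bool)) (𝒮 : Finset (Fin m → Fin b))
        (pt : (Fin m × Fin b → Bool) → E × Matrix (Fin r) (Fin r) ℝ)
        (ℓ : (Fin m → Fin b) → (E × Matrix (Fin r) (Fin r) ℝ) →ᵃ[ℝ] ℝ),
        (r : ℝ) ≤ Real.exp (c * n) →
        γ * ((b : ℝ) ^ m * 2 ^ (m * b)) ≤ ∑ S ∈ 𝒮, ∑ x ∈ 𝒳, mu S x →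
        (∀ x ∈ 𝒳, pt x ∈ 𝓐 ∧ (pt x).2.PosSemidef) →
        (∀ S ∈ 𝒮, ∀ x ∈ 𝒳, ℓ S (pt x) = SDX.ssum (SDX.rs S x) ^ 2) →
        (∀ S ∈ 𝒮, ∀ p ∈ 𝓐, p.2.PosSemidef → c₀ ≤ ℓ S p) → False := by
  obtain ⟨lam, c, b, hlam, hc0, hb, hbb, hlb, n₀, hnum⟩ :=
    numbersC c₀ γ hc hc1 hγ hγ1 (max 2 ⌈4 / ρ⌉₊)
  have hb2 : 2 ≤ b := le_trans (le_max_left _ _) hbb
  have hb' : (0 : ℝ) < b := by exact_mod_cast hb
  have hρb : 4 / (b : ℝ) ≤ ρ := by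
    have h1 : 4 / ρ ≤ (b : ℝ) := by
      refine (Nat.le_ceil _).trans ?_
      exact_mod_cast le_trans (le_max_right _ _) hbb
    rw [div_le_iff₀ hρ] at h1
    rw [div_le_iff₀ hb']
    linarith
  refine ⟨c, b, hc0, hb, n₀, fun n hn => ?_⟩
  obtain ⟨m, hm, hm3, hmn, hrec, hfin⟩ := hnum n hn
  have hm0 : 0 < m := hm.pos
  have hm' : (0 : ℝ) < m := by exact_mod_cast hm0
  have hκ : (0 : ℝ) < 2 * Real.sqrt m := by positivity
  have hbd : ∀ y : Fin m → Bool, |pd m y| ≤ 2 * Real.sqrt m := pd_bd m hm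
  have hfool : ∀ g ∈ Deg (Fin m) (m / 4), 0 ≤ ∑ y, pd m y * g y ^ 2 := fun g hg =>
    pd_fool m (m / 4) hm (by omega) g hg
  have h2pos : (0 : ℝ) < 2 ^ m := by positivity
  have hsum : ∑ y, pd m y = 2 ^ m := pd_one hm
  have hcoef : coef ∅ (pd m) = 1 := by
    rw [coef, Fintype.card_fin, div_eq_iff h2pos.ne', one_mul]
    simpa [chr] using hsum
  refine ⟨m, fun S x => pd m (rs S x), hm, hmn, ?_, ?_, ?_, ?_⟩
  · intro S
    have h6 := sum_rs S (pd m)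
    rw [hsum] at h6
    have h7 : (2 : ℝ) ^ m * (∑ x : Fin m × Fin b → Bool, pd m (rs S x))
        = 2 ^ m * 2 ^ (m * b) := by rw [h6]; ring
    exact mul_left_cancel₀ h2pos.ne' h7
  · intro u hu
    have h1 := LIFT.marg3 hb u (fun x => abs_le.2 ⟨by linarith [(hu x).1], (hu x).2⟩) (pd m)
      (Finset.univ)
    rw [hcoef] at h1
    simp only [mul_one] at h1
    rw [Finset.sum_sub_distrib, Finset.sum_const, Finset.card_univ, Fintype.card_fun,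
      Fintype.card_fin, Fintype.card_fin, nsmul_eq_mul, Nat.cast_pow] at h1
    refine h1.trans ?_
    have h2 : Real.sqrt (∑ A ∈ (Finset.univ : Finset (Finset (Fin m))).erase ∅,
        coef A (pd m) ^ 2 / (b : ℝ) ^ A.card) ≤ 4 / (b : ℝ) := by
      refine Real.sqrt_le_iff.2 ⟨by positivity, (pd_coef_sum hm hb2).trans (le_of_eq ?_)⟩
      rw [div_pow]
      norm_num
    calc (b : ℝ) ^ m * 2 ^ (m * b) * Real.sqrt (∑ A ∈ (Finset.univ :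
          Finset (Finset (Fin m))).erase ∅, coef A (pd m) ^ 2 / (b : ℝ) ^ A.card)
        ≤ (b : ℝ) ^ m * 2 ^ (m * b) * ρ :=
          mul_le_mul_of_nonneg_left (h2.trans hρb) (by positivity)
      _ = ρ * ((b : ℝ) ^ m * 2 ^ (m * b)) := by ring
  · intro u v hu hv
    have h6 := LIFT.rect4 (m := m) (d := m / 4) hb lam (2 * Real.sqrt m) hlam hlb hκ (pd m) hbd
      hfool u hu v hv
    refine le_trans (neg_le_neg ?_) h6
    calc (b : ℝ) ^ m * 2 ^ (m * b) * (2 * (2 * Real.sqrt m) / lam ^ (m / 4 + 1)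
          * Real.sqrt (24 ^ m))
        ≤ (b : ℝ) ^ m * 2 ^ (m * b) * (γ / 2) :=
          mul_le_mul_of_nonneg_left hrec (by positivity)
      _ = γ / 2 * ((b : ℝ) ^ m * 2 ^ (m * b)) := by ring
  intro r E _ _ 𝓐 𝒳 𝒮 pt ℓ hr hrect hpt hval hno
  set δ : ℝ := c₀ / (4 * (m : ℝ) ^ 2) with hδdef
  have hm1 : (1 : ℝ) ≤ (m : ℝ) ^ 2 := by
    have : (1 : ℝ) ≤ m := by exact_mod_cast hm0
    nlinarith
  have hδ : 0 < δ := by positivity
  have hδ1 : δ ≤ 1 / 4 := by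
    rw [hδdef, div_le_iff₀ (by positivity)]
    linarith
  set τ : ℝ := δ * γ / (8 * (2 * Real.sqrt m)) with hτ
  have hτ0 : 0 < τ := by positivity
  have hs1 : 1 ≤ Real.sqrt m := by
    rw [Real.one_le_sqrt]
    exact_mod_cast hm0
  have hτ1 : τ ≤ 1 / 4 := by
    rw [hτ, div_le_iff₀ (by positivity)]
    have h11 : δ * γ ≤ 1 / 4 * 1 := mul_le_mul hδ1 hγ1 hγ.le (by norm_num)
    linarith
  have hτ2 : 2 * Real.sqrt m * τ = δ * γ / 8 := by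
    rw [hτ]
    field_simp
  obtain ⟨P, Q, hP, hQ, hP0, hQ0, hPQ⟩ := LIFT.factor5 𝓐 δ 𝒳 pt hpt 𝒮
    (fun S => (1 / (4 * (m : ℝ) ^ 2)) • ℓ S)
    (fun S x => ssum (rs S x) ^ 2 / (4 * (m : ℝ) ^ 2))
    (fun S hS x hx => by
      change (1 / (4 * (m : ℝ) ^ 2)) • ℓ S (pt x) = _
      rw [hval S hS x hx, smul_eq_mul]
      ring)
    (fun S hS p hp hp2 => by
      have h12 := hno S hS p hp hp2
      change δ ≤ (1 / (4 * (m : ℝ) ^ 2)) • ℓ S p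
      rw [smul_eq_mul, hδdef, div_eq_mul_one_div, mul_comm]
      exact mul_le_mul_of_nonneg_left h12 (by positivity)) τ hτ0
  refine LIFT.main4 (m := m) (b := b) (r := r + 1) (d := m / 4) hb (Nat.succ_pos r) lam
    (2 * Real.sqrt m) γ δ τ (Real.sqrt (2 ^ m / (b : ℝ) ^ (m - 1)))
    hlam hlb hκ hγ hγ1 hδ hτ0.le hτ1 (pd m) (fun y => ssum y ^ 2 / (4 * (m : ℝ) ^ 2)) hbd hfool
    hsum (ssq_le hm0) (pd_ssq_sum hm hm3) ?_ 𝒳 𝒮 hrect P hP Q hQ hP0 hQ0 ?_ ?_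
  · exact Real.sqrt_le_sqrt (var_le hb _ (fun A hA => pd_ssq_coef hm A hA) (pd_ssq_le hm))
  · intro S hS x hx
    exact hPQ S hS x hx
  · rw [hτ2]
    exact hfin (r + 1) (Nat.succ_pos r) (by push_cast; linarith)

end SDX4
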